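import Pool.Agent.Helper96.NF.Push

/-!
# The recursive evaluation with a pushdown store uses one component of a queried word
-/

set_option autoImplicit false

namespace Pool.Agent.Helper96.NB

open Pool.Agent.Helper19.NF Pool.Agent.Helper96.NF

variable {U D B : Type} [Fintype D] [AddCommGroup B] {R d : ℕ}

omit [Fintype D] in
/-- After a query the program uses only one component of the word. -/
theorem prog1_comp (e : Fin d ≃ D) (hd : 0 < d) (g : D → Equiv.Perm U) (x0 : U → B) (R : ℕ) (u : U)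
    (s : St R U d B (Unit ⊕ B)) (v : B) (nx : (D → B) → St R U d B (Unit ⊕ B))
    (h : (prog1 e hd g x0 R u).act s = .ask v nx) :
    ∃ (c : D) (nx' : B → St R U d B (Unit ⊕ B)), ∀ w, nx w = nx' (w c) := by
  change pact e hd g x0 (ax1 hd x0 R u) (fun _ z => .inr z) s = .ask v nx at h
  rcases s with ⟨σ, t⟩ | ⟨σ, t, x⟩ | x | x | x
  · cases h
  · have h1 : (fun w : D → B => nxt σ.1 σ.2.1 σ.2.2 (t + w (e σ.2.2))) = nx := by
      injection h
    refine ⟨e σ.2.2, fun z => nxt σ.1 σ.2.1 σ.2.2 (t + z), fun w => ?_⟩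
    rw [← h1]
  · cases h
  · cases h
  · cases h

/-- The program for one value. -/
theorem one_value [Fintype B] [Fintype U] [Nonempty D] (g : D → Equiv.Perm U) (x0 : U → B) (R : ℕ) (u : U) :
    ∃ (Q Γ : Type) (_ : Finite Q) (_ : Finite Γ) (P : PProg B (D → B) B Q Γ),
      Nat.card Q = (R * (Fintype.card U * Fintype.card D)) * (Fintype.card B + Fintype.card B * Fintype.card B) +
        2 * Fintype.card B + 1 ∧
      Nat.card Γ = (R * (Fintype.card U * Fintype.card D)) * Fintype.card B + 1 ∧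
      (∀ s v nx, P.act s = .ask v nx → ∃ (c : D) (nx' : B → Q), ∀ w, nx w = nx' (w c)) ∧
      ∀ I, P.Outputs I (val g x0 I R u) ∧ Nat.card {b // P.Asks I b} ≤ R * Fintype.card U := by
  classical
  have hd : 0 < Fintype.card D := Fintype.card_pos
  let e : Fin (Fintype.card D) ≃ D := (Fintype.equivFin D).symm
  refine ⟨St R U (Fintype.card D) B (Unit ⊕ B), Sy R U (Fintype.card D) B Unit, inferInstance, inferInstance,
    prog1 e hd g x0 R u, ?_, ?_, prog1_comp e hd g x0 R u, fun I => ?_⟩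
  · rw [Nat.card_eq_fintype_card]
    simp only [Fintype.card_sum, Fintype.card_prod, Fintype.card_fin, Fintype.card_unit]
    ring
  · rw [Nat.card_eq_fintype_card]
    simp only [Fintype.card_sum, Fintype.card_prod, Fintype.card_fin, Fintype.card_unit]
  · have hY : ∀ i < R, ∀ w, val g x0 I i w ∈ Set.range (fun y : Fin R × U => val g x0 I y.1 y.2) :=
      fun i hi w => ⟨(⟨i, hi⟩, w), rfl⟩
    have hg : Good (prog1 e hd g x0 R u) I
        (Set.range (fun y : Fin R × U => val g x0 I y.1 y.2)) (val g x0 I R u)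
        (.inr (.inr (.inr (.inl ()))), []) := by
      refine good_push (P := prog1 e hd g x0 R u) (g := .inr ()) rfl ?_
      refine run_val e hd g x0 (ax1 hd x0 R u) _ _ I hY _ R le_rfl u _ ?_
      refine good_pop (P := prog1 e hd g x0 R u) (s := .inr (.inr (.inl _))) rfl ?_
      exact good_out rfl
    obtain ⟨h1, h2⟩ := hg
    refine ⟨h1, ?_⟩
    have h3 : ∀ b : {b // (prog1 e hd g x0 R u).Asks I b}, ∃ y : Fin R × U, val g x0 I y.1 y.2 = b.1 := by
      rintro ⟨b, m, nx, hm⟩
      exact h2 m b nx hm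
    choose f hf using h3
    have h4 : Function.Injective f := fun c c' h => Subtype.ext (by rw [← hf c, ← hf c', h])
    calc Nat.card {b // (prog1 e hd g x0 R u).Asks I b} ≤ Nat.card (Fin R × U) :=
          Nat.card_le_card_of_injective f h4
      _ = R * Fintype.card U := by
        rw [Nat.card_eq_fintype_card, Fintype.card_prod, Fintype.card_fin]

/-- The pushdown program for the result. -/
theorem pushdown_one {n m : ℕ} [NeZero m] {B : Type} [AddCommGroup B] [Fintype B] (hn : 1 ≤ n)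
    (x0 : ZMod (n + 1) × ZMod m → B) (hB : n * (n + 1) * m ≤ Fintype.card B) (hB2 : 2 ≤ Fintype.card B) :
    ∃ (Q Γ : Type) (_ : Finite Q) (_ : Finite Γ) (P : PProg B (Bool × ZMod m → B) B Q Γ),
      Nat.card Q ≤ 4 * Fintype.card B ^ 4 ∧ Nat.card Γ ≤ 4 * Fintype.card B ^ 3 ∧
      (∀ s v nx, P.act s = .ask v nx → ∃ (c : Bool × ZMod m) (nx' : B → Q), ∀ w, nx w = nx' (w c)) ∧
      ∀ I, P.Outputs I (out x0 I) ∧ Nat.card {b // P.Asks I b} ≤ n * (n + 1) * m := by
  obtain ⟨Q, Γ, h1, h2, P, h3, h4, hc, h5⟩ := one_value (ring n m) x0 n (0, 0)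
  have hU : Fintype.card (ZMod (n + 1) × ZMod m) = (n + 1) * m := by
    rw [Fintype.card_prod, ZMod.card, ZMod.card]
  have hD : Fintype.card (Bool × ZMod m) = 2 * m := by
    rw [Fintype.card_prod, Fintype.card_bool, ZMod.card]
  rw [hU, hD] at h3
  rw [hU, hD] at h4
  rw [hU] at h5
  have hm : 1 ≤ m := NeZero.one_le
  generalize Fintype.card B = k at hB hB2 h3 h4 ⊢
  have e1 : n * ((n + 1) * m * (2 * m)) ≤ k * k := by
    have e2 : 2 * m ≤ k := by nlinarith
    calc n * ((n + 1) * m * (2 * m)) = (n * (n + 1) * m) * (2 * m) := by ring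
      _ ≤ k * k := Nat.mul_le_mul hB e2
  have e5 : k * k * (k + k * k) ≤ 2 * (k * k * (k * k)) := by
    nlinarith [Nat.mul_le_mul (le_refl (k * k)) (by nlinarith : k ≤ k * k)]
  have e6 : 2 * k + 1 ≤ 2 * (k * k * (k * k)) := by
    have : 4 ≤ k * k := Nat.mul_le_mul hB2 hB2
    nlinarith [Nat.mul_le_mul this (le_refl (k * k))]
  refine ⟨Q, Γ, h1, h2, P, ?_, ?_, hc, fun I => ⟨(h5 I).1, (h5 I).2.trans (by rw [mul_assoc])⟩⟩
  · rw [h3]
    calc n * ((n + 1) * m * (2 * m)) * (k + k * k) + 2 * k + 1 ≤ k * k * (k + k * k) + (2 * k + 1) := by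
          have := Nat.mul_le_mul e1 (le_refl (k + k * k))
          omega
      _ ≤ 4 * (k * k * (k * k)) := by omega
      _ = 4 * k ^ 4 := by ring
  · rw [h4]
    calc n * ((n + 1) * m * (2 * m)) * k + 1 ≤ k * k * k + 1 := by
          have := Nat.mul_le_mul e1 (le_refl k)
          omega
      _ ≤ 4 * k ^ 3 := by
          have : 1 ≤ k ^ 3 := Nat.one_le_pow _ _ (by omega)
          nlinarith

end Pool.Agent.Helper96.NB
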